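import Pool.Agent.Helper29.OT.St

/-!
# Project OT, module KB
-/

set_option autoImplicit false

namespace Pool.Agent.Helper90.OT

open Finset Pool.Agent.Helper14.FEM Pool.Agent.Helper3.EMK Pool.Agent.Helper29.TK
  Pool.Agent.Helper29.OT

/-- probability and excess are at most the mean of the sum -/
theorem KB_PG {ι : Type} [Fintype ι] (q x : ι → ℝ) (hq : ∀ i, 0 ≤ q i) (hq1 : ∑ i, q i = 1)
    (hx : ∀ i, 0 ≤ x i) (k : ℕ) : Pr q x k 1 + Gx q x k 1 ≤ k * mean q x := by
  rw [← Ex_id q x hq1 k]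
  unfold Pr Gx
  rw [← Ex_add]
  apply Ex_mono q x hq hx
  intro s hs
  split_ifs with h
  · rw [max_eq_left (by linarith)]
    linarith
  · rw [max_eq_right (by linarith)]
    linarith

theorem KB_G {ι : Type} [Fintype ι] (q x : ι → ℝ) (hq : ∀ i, 0 ≤ q i) (hq1 : ∑ i, q i = 1)
    (hx : ∀ i, 0 ≤ x i) (k : ℕ) : 0 ≤ Gx q x k 1 :=
  Ex_nonneg q x hq hx hq1 k _ fun _ _ => le_max_right _ _

theorem KB_pow {k s : ℕ} (hs : 1 ≤ s) {b : ℝ} (hb0 : 0 ≤ b) (hb1 : b ≤ 1) :
    b ^ k - k / s ≤ (b * (1 - 1 / (s : ℝ))) ^ k := by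
  have hs0 : (0 : ℝ) < s := by exact_mod_cast hs
  have hs1 : (1 : ℝ) ≤ s := by exact_mod_cast hs
  have h1 : (1 : ℝ) / s ≤ 1 := by rw [div_le_one hs0]; exact hs1
  have h2 : 1 + (k : ℝ) * (-(1 / (s : ℝ))) ≤ (1 + -(1 / (s : ℝ))) ^ k :=
    one_add_mul_le_pow (by linarith) k
  have h3 : (1 + -(1 / (s : ℝ))) = 1 - 1 / (s : ℝ) := by ring
  rw [h3] at h2
  have hbk0 : 0 ≤ b ^ k := pow_nonneg hb0 k
  have hbk1 : b ^ k ≤ 1 := pow_le_one₀ hb0 hb1
  rw [mul_pow]
  have h4 : b ^ k * (1 + (k : ℝ) * (-(1 / (s : ℝ)))) ≤ b ^ k * (1 - 1 / (s : ℝ)) ^ k :=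
    mul_le_mul_of_nonneg_left h2 hbk0
  have h5 : b ^ k * ((k : ℝ) / s) ≤ 1 * ((k : ℝ) / s) :=
    mul_le_mul_of_nonneg_right hbk1 (by positivity)
  have h6 : b ^ k * (1 + (k : ℝ) * (-(1 / (s : ℝ)))) = b ^ k - b ^ k * ((k : ℝ) / s) := by ring
  linarith

theorem KB_exc {k n : ℕ} (hk : 1 ≤ k) (x : Fin n → ℝ) :
    exc k x univ = k * ∑ i, max (x i - 1 / k) 0 := by
  unfold exc
  rw [Finset.mul_sum]
  apply Finset.sum_congr rfl
  intro i _
  have hk0 : (0 : ℝ) < k := by exact_mod_cast hk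
  rw [mul_max_of_nonneg _ _ hk0.le, mul_zero, mul_sub, mul_one_div_cancel hk0.ne']

theorem hKB (hAL : StAL) (hGK : StGK) (hPC : StPC) : StKB := by
  intro k n s hk hT hs hn x hx hsum D hD hD1 hDs hs2 h2 hgap hc
  have hk0 : (0 : ℝ) < k := by exact_mod_cast (by omega : 0 < k)
  have hk2 : (2 : ℝ) ≤ k := by exact_mod_cast hk
  have hs0 : (0 : ℝ) < s := by exact_mod_cast hs
  have hs1 : (1 : ℝ) ≤ s := by exact_mod_cast hs
  have hn1 : 1 ≤ n := by
    calc 1 ≤ k * s := Nat.one_le_iff_ne_zero.2 (by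
          have := Nat.mul_pos (by omega : 0 < k) (by omega : 0 < s)
          omega)
      _ ≤ n := hn
  have hn0 : (0 : ℝ) < n := by exact_mod_cast hn1
  have hksn : (k : ℝ) * s ≤ n := by exact_mod_cast hn
  set q : Fin n → ℝ := un n with hqd
  have hq : ∀ i, 0 ≤ q i := fun i => by
    show 0 ≤ 1 / (n : ℝ)
    positivity
  have hq1 : ∑ i, q i = 1 := by
    show ∑ i : Fin n, 1 / (n : ℝ) = 1
    rw [Finset.sum_const, Finset.card_univ, Fintype.card_fin, nsmul_eq_mul]
    field_simp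
  set P : ℝ := Pr q x k 1 with hP
  set G : ℝ := Gx q x k 1 with hG
  set m : ℝ := mean q x with hm
  have hmn : m = (∑ i, x i) / n := by
    show ∑ i : Fin n, 1 / (n : ℝ) * x i = _
    rw [← Finset.mul_sum]
    ring
  have hma : k * m ≤ k * s / n := by
    rw [hmn, mul_div_assoc']
    apply div_le_div_of_nonneg_right _ hn0.le
    exact mul_le_mul_of_nonneg_left hsum.le hk0.le
  have hmlt : k * m < k * s / n := by
    rw [hmn, mul_div_assoc']
    apply div_lt_div_of_pos_right _ hn0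
    exact mul_lt_mul_of_pos_left hsum hk0
  have hka1 : (k : ℝ) * s / n ≤ 1 := by rw [div_le_one hn0]; exact hksn
  have hPG : P + G ≤ k * m := KB_PG q x hq hq1 hx k
  have hG0 : 0 ≤ G := KB_G q x hq hq1 hx k
  have hP1 : P < 1 := by linarith
  -- p
  set p : ℝ := k * (s - 1) / n with hp
  have hp0 : 0 ≤ p := by
    apply div_nonneg _ hn0.le
    exact mul_nonneg hk0.le (by linarith)
  have hpa : p = (k * s / n) * (1 - 1 / (s : ℝ)) := by
    rw [hp]
    field_simp
  have hpk : ((k : ℝ) * s / n) ^ k - k / s ≤ p ^ k := by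
    rw [hpa]
    exact KB_pow hs (by positivity) hka1
  have hks1 : (k : ℝ) / s ≤ D / 2 := by
    rw [div_le_iff₀ hs0]
    linarith
  have hks2 : (k : ℝ) / s ≤ 1 / 100 := by
    rw [div_le_iff₀ hs0]
    have : (100 : ℝ) * k ≤ s := by exact_mod_cast hs2
    linarith
  have hPp : p ^ k ≤ P := by
    have h3 := hPC.1 n k x hn1 hx
    have h4 := hPC.2.1 k s (by omega) hs
    have h5 : (k.factorial : ℝ) * ((k * s - 1).choose k) ≤ k.factorial * cnt univ x k 1 := by
      apply mul_le_mul_of_nonneg_left _ (by positivity)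
      exact_mod_cast hc
    have h6 : ((k : ℝ) * (s - 1)) ^ k ≤ n ^ k * P := h4.trans (h5.trans h3)
    rw [hp, div_pow, div_le_iff₀ (by positivity)]
    linarith
  have hp49 : (49 / 100 : ℝ) ≤ p ^ k := by linarith
  have hP0 : 0 < P := by linarith
  have hAA : D / 2 / 2 ≤ AA k P := by
    apply hAL k hk ((s : ℝ) / n) p (D / 2) P (by positivity)
    · rw [mul_div_assoc']; exact hka1
    · exact hp0
    · rw [mul_div_assoc', hp]
      apply div_le_div_of_nonneg_right _ hn0.le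
      apply mul_le_mul_of_nonneg_left _ hk0.le
      linarith
    · linarith
    · linarith
    · linarith
    · linarith
    · exact hPp
    · exact hP1
  have hTT := hT (Fin n) q x 1 hq hq1 hx one_pos hP0 hP1
  rw [one_mul] at hTT
  have hrt : p ≤ rt k P := by
    unfold rt
    rw [← Real.rpow_natCast] at hPp
    have h3 : (p ^ (k : ℝ)) ^ ((1 : ℝ) / k) ≤ P ^ ((1 : ℝ) / k) :=
      Real.rpow_le_rpow (by positivity) hPp (by positivity)
    rwa [← Real.rpow_mul hp0, mul_one_div_cancel hk0.ne', Real.rpow_one] at h3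
  have hGb : D / 4 * G ≤ k / n := by
    have h3 : D / 4 * G ≤ AA k P * G := by
      apply mul_le_mul_of_nonneg_right _ hG0
      linarith
    have h4 : (k : ℝ) * s / n - p = k / n := by
      rw [hp]
      field_simp
      ring
    linarith
  -- the excess
  have hGK1 := hGK (Fin n) q x hq hq1 hx k (by omega)
  have hE := KB_exc (k := k) (n := n) (by omega) x
  set M : ℝ := ∑ i, max (x i - 1 / k) 0 with hM
  have hM0 : 0 ≤ M := Finset.sum_nonneg fun i _ => le_max_right _ _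
  have hqM : ∑ i, q i * max (x i - 1 / k) 0 = M / n := by
    show ∑ i : Fin n, 1 / (n : ℝ) * max (x i - 1 / k) 0 = _
    rw [← Finset.mul_sum]
    ring
  rw [hqM] at hGK1
  have h3 : M / n * P ≤ (k + 1) / k * G := hGK1
  have h4 : G ≤ 4 * k / (n * D) := by
    rw [le_div_iff₀ (by positivity)]
    rw [le_div_iff₀ hn0] at hGb
    nlinarith
  have h5 : M / n * P ≤ (k + 1) / k * (4 * k / (n * D)) :=
    h3.trans (mul_le_mul_of_nonneg_left h4 (by positivity))
  have h6 : M * P ≤ 4 * (k + 1) / D := by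
    have e1 : (k + 1) / k * (4 * k / (n * D)) = 4 * ((k : ℝ) + 1) / D / n := by
      field_simp
    rw [e1, div_mul_eq_mul_div, div_le_div_iff_of_pos_right hn0] at h5
    exact h5
  have h7 : M * (49 / 100) ≤ 4 * (k + 1) / D := by
    refine le_trans ?_ h6
    exact mul_le_mul_of_nonneg_left (by linarith) hM0
  rw [hE]
  have h8 : M ≤ 13 * k / D := by
    rw [le_div_iff₀ hD]
    rw [le_div_iff₀ hD] at h7
    nlinarith
  calc (k : ℝ) * M ≤ k * (13 * k / D) := mul_le_mul_of_nonneg_left h8 hk0.le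
    _ = 13 * k ^ 2 / D := by ring

end Pool.Agent.Helper90.OT
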